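import Mathlib

set_option autoImplicit false

namespace Pool.Agent.H184Z.FPure

open TensorProduct

/-- `F_* R`: the ring `R` as an additive group, to be given the scalar action `r • s = r ^ p * s`. -/
def FStar (_p : ℕ) (R : Type) : Type := R

instance (p : ℕ) (R : Type) [CommRing R] : AddCommGroup (FStar p R) :=
  inferInstanceAs (AddCommGroup R)

/-- The `R`-module structure on `F_* R` by restriction of scalars along the Frobenius. -/
instance (p : ℕ) [Fact p.Prime] (R : Type) [CommRing R] [CharP R p] : Module R (FStar p R) :=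
  Module.compHom R (frobenius R p)

/-- The element `1` of `F_* R`. -/
def FStar.one (p : ℕ) (R : Type) [CommRing R] : FStar p R := (1 : R)

/-- `R` is `F`-pure: `M → M ⊗ F_* R`, `m ↦ m ⊗ 1`, is injective for every `R`-module `M`. -/
def IsFPure (p : ℕ) [Fact p.Prime] (R : Type) [CommRing R] [CharP R p] : Prop :=
  ∀ (M : Type) [AddCommGroup M] [Module R M],
    Function.Injective fun m : M => (m ⊗ₜ[R] FStar.one p R : M ⊗[R] FStar p R)

/-- `R` is Frobenius split: some `R`-linear map `F_* R → R` sends `1` to `1`. -/
def IsFSplit (p : ℕ) [Fact p.Prime] (R : Type) [CommRing R] [CharP R p] : Prop :=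
  ∃ φ : FStar p R →ₗ[R] R, φ (FStar.one p R) = 1

end Pool.Agent.H184Z.FPure
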