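import Pool.Agent.H184Z.FPure.Split

set_option autoImplicit false

namespace Pool.Agent.H184Z.FPure

open MvPolynomial

variable (p : ℕ) [Fact p.Prime]

abbrev Idx := Fin 3 × ℕ
abbrev PP := MvPolynomial Idx (ZMod p)
abbrev KK := FractionRing (PP p)

noncomputable abbrev io : PP p →+* KK p := algebraMap (PP p) (KK p)

instance : CharP (KK p) p := charP_of_injective_algebraMap (IsFractionRing.injective (PP p) (KK p)) p

open Classical in
/-- the standard `p⁻¹`-linear map on monomials -/
noncomputable def thM (d : Idx →₀ ℕ) : PP p :=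
  if ∀ s, p ∣ d s then monomial (d.mapRange (· / p) (by simp)) 1 else 0

noncomputable def thP : PP p →ₗ[ZMod p] PP p := (basisMonomials Idx (ZMod p)).constr (ZMod p) (thM p)

lemma thP_monomial (d : Idx →₀ ℕ) (c : ZMod p) : thP p (monomial d c) = c • thM p d := by
  have : (monomial d c : PP p) = c • basisMonomials Idx (ZMod p) d := by
    simp [smul_monomial]
  rw [this, map_smul, thP, Module.Basis.constr_basis]

lemma thM_add (d e : Idx →₀ ℕ) : thM p (p • e + d) = monomial e 1 * thM p d := by
  have hp : 0 < p := (Fact.out : p.Prime).pos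
  unfold thM
  have : (∀ s, p ∣ (p • e + d) s) ↔ ∀ s, p ∣ d s := by
    refine forall_congr' fun s => ?_
    simp only [Finsupp.coe_add, Finsupp.coe_smul, Pi.add_apply, Pi.smul_apply, smul_eq_mul]
    exact (Nat.dvd_add_right (dvd_mul_right _ _))
  by_cases h : ∀ s, p ∣ d s
  · rw [if_pos h, if_pos (this.2 h), monomial_mul, one_mul]
    congr 2
    ext s
    simp [Nat.mul_add_div hp]
  · rw [if_neg h, if_neg (fun h' => h (this.1 h')), mul_zero]

lemma thP_lin (g f : PP p) : thP p (g ^ p * f) = g * thP p f := by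
  induction g using MvPolynomial.induction_on' with
  | monomial e c =>
    induction f using MvPolynomial.induction_on' with
    | monomial d b =>
      rw [monomial_pow, monomial_mul, thP_monomial, thP_monomial, thM_add, ZMod.pow_card,
        ← smul_smul, mul_smul_comm, smul_comm c b, ← smul_mul_assoc c, smul_monomial, smul_eq_mul,
        mul_one]
    | add f1 f2 h1 h2 => rw [mul_add, map_add, h1, h2, map_add, mul_add]
  | add g1 g2 h1 h2 => rw [add_pow_char, add_mul, map_add, h1, h2, add_mul]

lemma thP_one : thP p 1 = 1 := by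
  have : (1 : PP p) = monomial 0 1 := rfl
  rw [this, thP_monomial, one_smul, thM, if_pos (by simp)]
  simp

lemma thP_supported (S : Set Idx) {f : PP p} (hf : f ∈ supported (ZMod p) S) :
    thP p f ∈ supported (ZMod p) S := by
  classical
  rw [mem_supported] at hf
  rw [f.as_sum, map_sum]
  refine Subalgebra.sum_mem _ fun d hd => ?_
  rw [thP_monomial]
  refine Subalgebra.smul_mem _ ?_ _
  unfold thM
  split_ifs
  · rw [mem_supported, vars_monomial one_ne_zero]
    intro s hs
    exact hf ((mem_vars_iff_mem_support s).2 ⟨d, hd, Finsupp.support_mapRange hs⟩)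
  · exact zero_mem _

lemma thP_rename (e : Idx ≃ Idx) (f : PP p) : thP p (rename e f) = rename e (thP p f) := by
  induction f using MvPolynomial.induction_on' with
  | monomial d c =>
    rw [rename_monomial, thP_monomial, thP_monomial, map_smul]
    congr 1
    unfold thM
    have : (∀ s, p ∣ (d.mapDomain e) s) ↔ ∀ s, p ∣ d s := by
      simp only [Finsupp.mapDomain_equiv_apply]
      exact ⟨fun h s => by simpa using h (e s), fun h s => h _⟩
    by_cases h : ∀ s, p ∣ d s
    · rw [if_pos h, if_pos (this.2 h), rename_monomial]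
      congr 2
      ext s
      simp [Finsupp.mapDomain_equiv_apply]
    · rw [if_neg h, if_neg (fun h' => h (this.1 h')), map_zero]
  | add f1 f2 h1 h2 => simp only [map_add, h1, h2]

lemma exists_rep (x : KK p) : ∃ f g : PP p, g ≠ 0 ∧ io p g ^ p * x = io p f := by
  obtain ⟨a, b, hb, rfl⟩ := IsFractionRing.div_surjective (A := PP p) x
  have hb0 : b ≠ 0 := nonZeroDivisors.ne_zero hb
  have hb1 : io p b ≠ 0 := by simpa using hb0
  refine ⟨a * b ^ (p - 1), b, hb0, ?_⟩
  rw [map_mul, map_pow, ← pow_sub_one_mul (Fact.out : p.Prime).ne_zero (io p b), mul_assoc,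
    mul_div_cancel₀ _ hb1, mul_comm]

noncomputable def thF (x : KK p) : KK p :=
  io p (thP p (exists_rep p x).choose) / io p (exists_rep p x).choose_spec.choose

lemma thF_spec {x : KK p} {f g : PP p} (hg : g ≠ 0) (h : io p g ^ p * x = io p f) :
    thF p x = io p (thP p f) / io p g := by
  obtain ⟨h1, h2⟩ := (exists_rep p x).choose_spec.choose_spec
  unfold thF
  set f' := (exists_rep p x).choose
  set g' := (exists_rep p x).choose_spec.choose
  have hg1 : io p g ≠ 0 := by simpa using hg
  have hg2 : io p g' ≠ 0 := by simpa using h1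
  have h3 : g ^ p * f' = g' ^ p * f := by
    apply IsFractionRing.injective (PP p) (KK p)
    rw [map_mul, map_mul, map_pow, map_pow, ← h, ← h2]; ring
  have h4 := congrArg (fun z => io p (thP p z)) h3
  simp only [thP_lin, map_mul] at h4
  rw [div_eq_div_iff hg2 hg1, mul_comm, h4, mul_comm]

/-- the standard `p⁻¹`-linear map of the rational function field -/
noncomputable def th : KK p →+ KK p := AddMonoidHom.mk' (thF p) fun x y => by
  obtain ⟨f, g, hg, h⟩ := exists_rep p x
  obtain ⟨f', g', hg', h'⟩ := exists_rep p y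
  have hg1 : io p g ≠ 0 := by simpa using hg
  have hg2 : io p g' ≠ 0 := by simpa using hg'
  rw [thF_spec p hg h, thF_spec p hg' h',
    thF_spec p (f := g' ^ p * f + g ^ p * f') (mul_ne_zero hg hg') (by
      simp only [map_mul, map_add, map_pow, ← h, ← h']; ring)]
  simp only [map_add, thP_lin, map_mul]
  field_simp

lemma th_io (f : PP p) : th p (io p f) = io p (thP p f) := by
  have := thF_spec p (x := io p f) (f := f) (g := 1) one_ne_zero (by simp)
  rw [map_one, div_one] at this
  exact this

lemma th_lin (x y : KK p) : th p (x ^ p * y) = x * th p y := by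
  obtain ⟨a, b, hb, rfl⟩ := IsFractionRing.div_surjective (A := PP p) x
  have hb0 : b ≠ 0 := nonZeroDivisors.ne_zero hb
  have hb1 : io p b ≠ 0 := by simpa using hb0
  obtain ⟨f, g, hg, h⟩ := exists_rep p y
  have hg1 : io p g ≠ 0 := by simpa using hg
  show thF p _ = _ * thF p y
  rw [thF_spec p hg h, thF_spec p (f := a ^ p * f) (mul_ne_zero hb0 hg) (by
    simp only [map_mul, map_pow, ← h, div_pow, mul_pow]; field_simp)]
  simp only [thP_lin, map_mul]
  field_simp

/-- the subfield generated by the variables in `S` -/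
noncomputable def KS (S : Set Idx) : Subfield (KK p) := Subfield.closure ((fun s => io p (X s)) '' S)

lemma X_mem_KS {S : Set Idx} {s : Idx} (h : s ∈ S) : io p (X s) ∈ KS p S :=
  Subfield.subset_closure ⟨s, h, rfl⟩

lemma KS_mono {S T : Set Idx} (h : S ⊆ T) : KS p S ≤ KS p T :=
  Subfield.closure_mono (Set.image_mono h)

lemma io_mem_KS {S : Set Idx} {f : PP p} (hf : f ∈ supported (ZMod p) S) : io p f ∈ KS p S := by
  rw [supported_eq_adjoin_X] at hf
  induction hf using Algebra.adjoin_induction with
  | mem x hx => obtain ⟨s, hs, rfl⟩ := hx; exact X_mem_KS p hs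
  | algebraMap r =>
    obtain ⟨n, rfl⟩ := ZMod.natCast_zmod_surjective r
    simp only [map_natCast]; exact natCast_mem _ n
  | add x y _ _ hx hy => rw [map_add]; exact add_mem hx hy
  | mul x y _ _ hx hy => rw [map_mul]; exact mul_mem hx hy

lemma th_mem_KS {S : Set Idx} {x : KK p} (hx : x ∈ KS p S) : th p x ∈ KS p S := by
  have key : Subring.closure ((fun s => io p (X s)) '' S) ≤
      (supported (ZMod p) S).toSubring.map (io p) := by
    rw [Subring.closure_le]
    rintro _ ⟨s, hs, rfl⟩
    exact ⟨X s, X_mem_supported.2 hs, rfl⟩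
  obtain ⟨y, hy, z, hz, rfl⟩ := Subfield.mem_closure_iff.1 hx
  obtain ⟨f, hf, rfl⟩ := key hy
  obtain ⟨g, hg, rfl⟩ := key hz
  by_cases h0 : io p g = 0
  · rw [h0, div_zero, map_zero]; exact zero_mem _
  have : io p f / io p g = (io p g)⁻¹ ^ p * io p (f * g ^ (p - 1)) := by
    rw [map_mul, map_pow, inv_pow, ← pow_sub_one_mul (Fact.out : p.Prime).ne_zero (io p g)]
    field_simp
  rw [this, th_lin, th_io]
  exact mul_mem (inv_mem (io_mem_KS p hg))
    (io_mem_KS p (thP_supported p S (mul_mem hf (pow_mem hg _))))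

lemma exists_KS (x : KK p) : ∃ i, x ∈ KS p {s | s.2 < i} := by
  have key : ∀ f : PP p, ∃ i, io p f ∈ KS p {s | s.2 < i} := by
    intro f
    obtain ⟨i, hi⟩ := (f.vars.image Prod.snd).bddAbove
    refine ⟨i + 1, io_mem_KS p ?_⟩
    rw [mem_supported]
    intro s hs
    exact Nat.lt_succ_of_le (hi (Finset.mem_coe.2 (Finset.mem_image_of_mem _ hs)))
  obtain ⟨a, b, _, rfl⟩ := IsFractionRing.div_surjective (A := PP p) x
  obtain ⟨i, hi⟩ := key a
  obtain ⟨j, hj⟩ := key b
  have h1 : {s : Idx | s.2 < i} ⊆ {s | s.2 < max i j} := fun s hs =>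
    show s.2 < max i j from lt_max_of_lt_left hs
  have h2 : {s : Idx | s.2 < j} ⊆ {s | s.2 < max i j} := fun s hs =>
    show s.2 < max i j from lt_max_of_lt_right hs
  exact ⟨max i j, div_mem (KS_mono p h1 hi) (KS_mono p h2 hj)⟩

end Pool.Agent.H184Z.FPure
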