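import Pool.Agent.H184Z.FPure.Field

set_option autoImplicit false

namespace Pool.Agent.H184Z.FPure

open MvPolynomial

variable (p : ℕ) [Fact p.Prime]

open Classical in
/-- the substitution `a_m ↦ a_m + c * l_m ^ p` for `m ∈ J` -/
noncomputable def rhoP (c : ZMod p) (J : Set ℕ) : PP p →ₐ[ZMod p] PP p :=
  aeval fun s => if s.1 = 0 ∧ s.2 ∈ J then X s + C c * X (1, s.2) ^ p else X s

lemma rhoP_of (c : ZMod p) (J : Set ℕ) {s : Idx} (h : s.1 = 0 ∧ s.2 ∈ J) :
    rhoP p c J (X s) = X s + C c * X (1, s.2) ^ p := by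
  simp only [rhoP, aeval_X, if_pos h]

lemma rhoP_of_not (c : ZMod p) (J : Set ℕ) {s : Idx} (h : ¬ (s.1 = 0 ∧ s.2 ∈ J)) :
    rhoP p c J (X s) = X s := by
  simp only [rhoP, aeval_X, if_neg h]

lemma rhoP_comp (c : ZMod p) (J : Set ℕ) :
    (rhoP p c J).comp (rhoP p (-c) J) = AlgHom.id _ _ := by
  apply MvPolynomial.algHom_ext
  intro s
  rw [AlgHom.comp_apply, AlgHom.id_apply]
  by_cases h : s.1 = 0 ∧ s.2 ∈ J
  · rw [rhoP_of p _ _ h, map_add, map_mul, map_pow, rhoP_of p _ _ h,
      rhoP_of_not p _ _ (s := (1, s.2)) (by simp), algHom_C, map_neg]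
    simp
  · rw [rhoP_of_not p _ _ h, rhoP_of_not p _ _ h]

noncomputable def rhoE (J : Set ℕ) : PP p ≃ₐ[ZMod p] PP p :=
  AlgEquiv.ofAlgHom (rhoP p (-1) J) (rhoP p 1 J)
    (by simpa using rhoP_comp p (-1) J) (rhoP_comp p 1 J)

/-- the automorphism `a_m ↦ a_m - l_m ^ p` (`m ∈ J`) of the function field -/
noncomputable def rho (J : Set ℕ) : KK p ≃+* KK p :=
  IsFractionRing.ringEquivOfRingEquiv (rhoE p J).toRingEquiv

lemma rho_io (J : Set ℕ) (f : PP p) : rho p J (io p f) = io p (rhoP p (-1) J f) :=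
  IsFractionRing.ringEquivOfRingEquiv_algebraMap _ _

lemma rho_symm_io (J : Set ℕ) (f : PP p) : (rho p J).symm (io p f) = io p (rhoP p 1 J f) :=
  IsFractionRing.ringEquivOfRingEquiv_algebraMap (rhoE p J).toRingEquiv.symm _

/-- the index swap `l_m ↔ u_m` -/
def sw : Idx ≃ Idx := Equiv.prodCongr (Equiv.swap 1 2) (Equiv.refl ℕ)

lemma sw_sw (s : Idx) : sw (sw s) = s := by
  obtain ⟨i, m⟩ := s
  simp [sw]

noncomputable def swK : KK p ≃+* KK p :=
  IsFractionRing.ringEquivOfRingEquiv (renameEquiv (ZMod p) sw).toRingEquiv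

lemma swK_io (f : PP p) : swK p (io p f) = io p (rename sw f) :=
  IsFractionRing.ringEquivOfRingEquiv_algebraMap _ _

lemma swK_swK (x : KK p) : swK p (swK p x) = x := by
  obtain ⟨a, b, _, rfl⟩ := IsFractionRing.div_surjective (A := PP p) x
  have : ∀ f : PP p, swK p (swK p (io p f)) = io p f := fun f => by
    rw [swK_io, swK_io, rename_rename]
    have : (⇑sw ∘ ⇑sw) = id := funext sw_sw
    rw [this, rename_id_apply]
  rw [map_div₀, map_div₀, this, this]

lemma th_swK (x : KK p) : th p (swK p x) = swK p (th p x) := by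
  obtain ⟨f, g, hg, h⟩ := exists_rep p x
  have hg1 : io p g ≠ 0 := by simpa using hg
  have hx : x = (io p g)⁻¹ ^ p * io p f := by
    rw [← h, inv_pow, ← mul_assoc, inv_mul_cancel₀ (pow_ne_zero _ hg1), one_mul]
  rw [hx, map_mul, map_pow, th_lin, th_lin, map_mul, swK_io, th_io, th_io, thP_rename, swK_io]

/-- the involution -/
noncomputable def sig : KK p →+* KK p :=
  ((rho p Set.univ).symm.trans ((swK p).trans (rho p Set.univ))).toRingHom

lemma sig_apply (x : KK p) : sig p x = rho p Set.univ (swK p ((rho p Set.univ).symm x)) := rfl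

lemma sig_X_of_ne {s : Idx} (h : s.1 ≠ 0) : sig p (io p (X s)) = io p (X (sw s)) := by
  have h2 : (sw s).1 ≠ 0 := by
    obtain ⟨i, m⟩ := s
    fin_cases i
    · exact absurd rfl h
    · simp [sw]
    · simp [sw]
  rw [sig_apply, rho_symm_io, rhoP_of_not p _ _ (fun h' => h h'.1), swK_io, rename_X, rho_io,
    rhoP_of_not p _ _ (fun h' => h2 h'.1)]

lemma sig_rho_a (m : ℕ) : sig p (rho p Set.univ (io p (X (0, m)))) =
    rho p Set.univ (io p (X (0, m))) := by
  rw [sig_apply, RingEquiv.symm_apply_apply, swK_io, rename_X]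
  rfl

lemma rho_a (m : ℕ) : rho p Set.univ (io p (X (0, m))) =
    io p (X (0, m)) - io p (X (1, m)) ^ p := by
  rw [rho_io, rhoP_of p _ Set.univ (s := (0, m)) ⟨rfl, Set.mem_univ _⟩]
  simp [sub_eq_add_neg]

/-- the index sets of the filtration -/
def SS (i : ℕ) : Set Idx := {s | s.1 = 0 ∨ s.2 < i}

lemma map_KS (φ : KK p →+* KK p) {S : Set Idx} {T : Subfield (KK p)}
    (h : ∀ s ∈ S, φ (io p (X s)) ∈ T) {x : KK p} (hx : x ∈ KS p S) : φ x ∈ T := by
  have : KS p S ≤ T.comap φ := by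
    unfold KS
    rw [Subfield.closure_le]
    rintro _ ⟨s, hs, rfl⟩
    exact h s hs
  exact this hx

lemma rhoP_mem (c : ZMod p) (J : Set ℕ) {S : Set Idx}
    (h : ∀ s ∈ S, s.1 = 0 → s.2 ∈ J → (1, s.2) ∈ S) {s : Idx} (hs : s ∈ S) :
    io p (rhoP p c J (X s)) ∈ KS p S := by
  apply io_mem_KS
  by_cases h' : s.1 = 0 ∧ s.2 ∈ J
  · rw [rhoP_of p _ _ h']
    exact add_mem (X_mem_supported.2 hs) (mul_mem (Subalgebra.algebraMap_mem _ c)
      (pow_mem (X_mem_supported.2 (h s hs h'.1 h'.2)) _))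
  · rw [rhoP_of_not p _ _ h']; exact X_mem_supported.2 hs

lemma rho_mem (J : Set ℕ) {S : Set Idx} (h : ∀ s ∈ S, s.1 = 0 → s.2 ∈ J → (1, s.2) ∈ S)
    {x : KK p} (hx : x ∈ KS p S) : rho p J x ∈ KS p S :=
  map_KS p (rho p J).toRingHom (fun s hs => by
    show rho p J _ ∈ _
    rw [rho_io]; exact rhoP_mem p _ J h hs) hx

lemma rho_symm_mem (J : Set ℕ) {S : Set Idx} (h : ∀ s ∈ S, s.1 = 0 → s.2 ∈ J → (1, s.2) ∈ S)
    {x : KK p} (hx : x ∈ KS p S) : (rho p J).symm x ∈ KS p S :=
  map_KS p (rho p J).symm.toRingHom (fun s hs => by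
    show (rho p J).symm _ ∈ _
    rw [rho_symm_io]; exact rhoP_mem p _ J h hs) hx

lemma rhoP_agree (c : ZMod p) {i : ℕ} {s : Idx} (hs : s.2 < i) :
    rhoP p c (Set.Iio i) (X s) = rhoP p c Set.univ (X s) := by
  by_cases h : s.1 = 0
  · rw [rhoP_of p _ _ ⟨h, hs⟩, rhoP_of p _ Set.univ ⟨h, Set.mem_univ _⟩]
  · rw [rhoP_of_not p _ _ (fun h' => h h'.1), rhoP_of_not p _ _ (fun h' => h h'.1)]

lemma rho_agree {i : ℕ} {x : KK p} (hx : x ∈ KS p {s | s.2 < i}) :
    rho p (Set.Iio i) x = rho p Set.univ x :=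
  RingHom.eqOn_field_closure (f := (rho p (Set.Iio i)).toRingHom)
    (g := (rho p Set.univ).toRingHom) (by
      rintro _ ⟨s, hs, rfl⟩
      show rho p _ _ = rho p _ _
      rw [rho_io, rho_io, rhoP_agree p _ hs]) hx

lemma rho_symm_agree {i : ℕ} {x : KK p} (hx : x ∈ KS p {s | s.2 < i}) :
    (rho p (Set.Iio i)).symm x = (rho p Set.univ).symm x :=
  RingHom.eqOn_field_closure (f := (rho p (Set.Iio i)).symm.toRingHom)
    (g := (rho p Set.univ).symm.toRingHom) (by
      rintro _ ⟨s, hs, rfl⟩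
      show (rho p _).symm _ = (rho p _).symm _
      rw [rho_symm_io, rho_symm_io, rhoP_agree p _ hs]) hx

/-- the twisted `p⁻¹`-linear maps -/
noncomputable def thJ (J : Set ℕ) : KK p →+ KK p :=
  (rho p J).toAddMonoidHom.comp ((th p).comp (rho p J).symm.toAddMonoidHom)

lemma thJ_apply (J : Set ℕ) (x : KK p) : thJ p J x = rho p J (th p ((rho p J).symm x)) := rfl

open Classical in
/-- `l_m ↦ l_m + ε` -/
noncomputable def delP (m : ℕ) : PP p →+* DualNumber (KK p) :=
  eval₂Hom ((TrivSqZeroExt.inlHom (KK p) (KK p)).comp ((io p).comp C))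
    fun s => TrivSqZeroExt.inl (io p (X s)) + if s = (1, m) then DualNumber.eps else 0

lemma fst_delP (m : ℕ) (f : PP p) : (delP p m f).fst = io p f := by
  have : (TrivSqZeroExt.fstHom (KK p) (KK p) (KK p)).toRingHom.comp (delP p m) = io p := by
    apply MvPolynomial.ringHom_ext
    · intro r; simp [delP]
    · intro s
      by_cases h : s = (1, m) <;> simp [delP, h]
  exact congrArg (fun φ : PP p →+* KK p => φ f) this

noncomputable def del (m : ℕ) : KK p →+* DualNumber (KK p) :=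
  IsLocalization.lift (M := nonZeroDivisors (PP p)) (g := delP p m) fun y => by
    rw [TrivSqZeroExt.isUnit_iff_isUnit_fst, fst_delP, isUnit_iff_ne_zero]
    simp

lemma del_X (m : ℕ) (s : Idx) : del p m (io p (X s)) =
    TrivSqZeroExt.inl (io p (X s)) + if s = (1, m) then DualNumber.eps else 0 := by
  rw [del, IsLocalization.lift_eq]
  by_cases h : s = (1, m) <;> simp [delP, h]

/-- the constants of `∂ / ∂ l_m` -/
noncomputable def DD (m : ℕ) : Subfield (KK p) :=
  (del p m).eqLocusField (TrivSqZeroExt.inlHom (KK p) (KK p))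

lemma X_mem_DD {m : ℕ} {s : Idx} (h : s ≠ (1, m)) : io p (X s) ∈ DD p m := by
  show del p m _ = _
  rw [del_X, if_neg h, add_zero]; rfl

lemma X_not_mem_DD (m : ℕ) : io p (X (1, m)) ∉ DD p m := by
  intro h
  have h1 : del p m (io p (X (1, m))) = TrivSqZeroExt.inl (io p (X (1, m))) := h
  rw [del_X, if_pos rfl] at h1
  have := congrArg TrivSqZeroExt.snd h1
  simp at this

lemma X_pow_mem_DD (m : ℕ) (s : Idx) : io p (X s) ^ p ∈ DD p m := by
  by_cases h : s = (1, m)
  · show del p m _ = _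
    have : CharP (DualNumber (KK p)) p :=
      charP_of_injective_algebraMap (algebraMap (KK p) (DualNumber (KK p))).injective p
    obtain ⟨q, hq⟩ : ∃ q, p = q + 2 := ⟨p - 2, by have := (Fact.out : p.Prime).two_le; omega⟩
    have h2 : (DualNumber.eps : DualNumber (KK p)) ^ p = 0 := by
      have : (DualNumber.eps : DualNumber (KK p)) ^ (q + 2) = 0 := by
        rw [pow_add, pow_two, DualNumber.eps_mul_eps, mul_zero]
      rwa [← hq] at this
    rw [map_pow, del_X, if_pos h, add_pow_char, h2, add_zero, map_pow]; rfl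
  · exact pow_mem (X_mem_DD p h) _

/-- the concrete data -/
noncomputable def data : Data p (KK p) where
  σ := sig p
  σσ x := by simp [sig_apply, swK_swK]
  l := io p (X (1, 0))
  hl := by
    rw [sig_X_of_ne p (by simp)]
    intro h
    have := X_injective (IsFractionRing.injective (PP p) (KK p) h)
    simp [sw] at this
  L i := KS p (SS i)
  mono i j h := KS_mono p fun s hs => hs.imp id fun h' => h'.trans_le h
  exh x := by
    obtain ⟨i, hi⟩ := exists_KS p x
    exact ⟨i, KS_mono p (fun s hs => Or.inr hs) hi⟩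
  θ i := thJ p (Set.Iio i)
  θ_lin i x y := by
    rw [thJ_apply, thJ_apply, map_mul, map_pow, th_lin, map_mul, RingEquiv.apply_symm_apply]
  θ_one i := by
    rw [thJ_apply, map_one, ← map_one (io p), th_io, thP_one, map_one, map_one]
  θ_mem i j hij x hx := by
    have h : ∀ s ∈ SS j, s.1 = 0 → s.2 ∈ Set.Iio i → (1, s.2) ∈ SS j :=
      fun s _ _ h => Or.inr (lt_of_lt_of_le h hij)
    exact rho_mem p _ h (th_mem_KS p (rho_symm_mem p _ h hx))
  θ_fix x hx := by
    obtain ⟨i0, hi⟩ := exists_KS p x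
    refine ⟨i0, fun i hle => ?_⟩
    have h0 : {s : Idx | s.2 < i0} ⊆ {s | s.2 < i} := fun s hs => lt_of_lt_of_le hs hle
    have hx' := KS_mono p h0 hi
    have h1 : (rho p Set.univ).symm x ∈ KS p {s | s.2 < i} :=
      rho_symm_mem p _ (fun s hs _ _ => hs) hx'
    rw [thJ_apply, rho_symm_agree p hx', rho_agree p (th_mem_KS p h1), sig_apply,
      RingEquiv.symm_apply_apply, ← th_swK]
    rw [sig_apply] at hx
    congr 2
    exact (rho p Set.univ).eq_symm_apply.2 hx
  obst Θ hlin hone hfix m := by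
    refine ⟨io p (X (0, m)), X_mem_KS p (Or.inl rfl), fun hw => ?_⟩
    have h1 := hfix _ (sig_rho_a p m)
    have h2 : Θ (io p (X (1, m)) ^ p) = io p (X (1, m)) := by
      have := hlin (io p (X (1, m))) 1
      rwa [mul_one, hone, mul_one] at this
    rw [rho_a, map_sub, h2, map_sub, sig_X_of_ne p (by simp)] at h1
    have h3 : Θ (io p (X (0, m))) ∈ DD p m := by
      refine map_KS p (RingHom.id _) (fun s hs => X_mem_DD p ?_) hw
      rintro rfl
      rcases hs with h | h <;> simp at h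
    have h4 : sig p (Θ (io p (X (0, m)))) ∈ DD p m := by
      refine map_KS p (sig p) (fun s hs => ?_) hw
      by_cases h0 : s.1 = 0
      · obtain ⟨i, j⟩ := s
        obtain rfl : i = 0 := h0
        have h5 := sig_rho_a p j
        rw [rho_a, map_sub, map_pow, sig_X_of_ne p (s := (1, j)) (by simp), sub_eq_iff_eq_add] at h5
        rw [h5]
        exact add_mem (sub_mem (X_mem_DD p (by simp)) (X_pow_mem_DD p _ _)) (X_pow_mem_DD p _ _)
      · rw [sig_X_of_ne p h0]
        refine X_mem_DD p fun h => ?_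
        have h6 : (sw s).2 = m := by rw [h]
        have h7 : s.2 < m := hs.resolve_left h0
        exact h7.ne h6
    apply X_not_mem_DD p m
    have h8 : io p (X (1, m)) = Θ (io p (X (0, m))) - sig p (Θ (io p (X (0, m)))) +
        io p (X (sw (1, m))) := by linear_combination h1
    rw [h8]
    exact add_mem (sub_mem h3 h4) (X_mem_DD p (by simp [sw]))

theorem main : ∃ (R : Type) (_ : CommRing R) (_ : CharP R p),
    IsNoetherianRing R ∧ IsDomain R ∧ IsLocalRing R ∧ ringKrullDim R = 1 ∧ IsFPure p R ∧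
      (∃ φ : FStar p R →ₗ[R] R, φ ≠ 0) ∧ ¬ IsFSplit p R :=
  ⟨(data p).R, inferInstance, inferInstance, inferInstance, inferInstance, inferInstance,
    (data p).dim, (data p).pure, (data p).exists_nonzero, (data p).not_split⟩

end Pool.Agent.H184Z.FPure
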