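import Pool.Agent.H184Z.FPure.Defs

set_option autoImplicit false

namespace Pool.Agent.H184Z.FPure

open PowerSeries TensorProduct

/-- The field data from which the ring is built. -/
structure Data (p : ℕ) (k : Type) [Field k] where
  σ : k →+* k
  σσ : ∀ x, σ (σ x) = x
  l : k
  hl : σ l ≠ l
  L : ℕ → Subfield k
  mono : Monotone L
  exh : ∀ x, ∃ i, x ∈ L i
  θ : ℕ → k →+ k
  θ_lin : ∀ i x y, θ i (x ^ p * y) = x * θ i y
  θ_one : ∀ i, θ i 1 = 1
  θ_mem : ∀ i j, i ≤ j → ∀ x ∈ L j, θ i x ∈ L j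
  θ_fix : ∀ x, σ x = x → ∃ i0, ∀ i, i0 ≤ i → σ (θ i x) = θ i x
  obst : ∀ Θ : k →+ k, (∀ x y, Θ (x ^ p * y) = x * Θ y) → Θ 1 = 1 →
    (∀ x, σ x = x → σ (Θ x) = Θ x) → ∀ m, ∃ a ∈ L 0, Θ a ∉ L m

variable {p : ℕ} {k : Type} [Field k] (D : Data p k)

/-- power series with all coefficients in one `L i` -/
def Data.V : Subring k⟦X⟧ where
  carrier := {f | ∃ i, ∀ n, coeff n f ∈ D.L i}
  mul_mem' := by
    rintro f g ⟨i, hi⟩ ⟨j, hj⟩
    refine ⟨max i j, fun n => ?_⟩
    rw [coeff_mul]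
    exact Subfield.sum_mem _ fun q _ => Subfield.mul_mem _ (D.mono (le_max_left _ _) (hi _))
      (D.mono (le_max_right _ _) (hj _))
  one_mem' := ⟨0, fun n => by
    rw [coeff_one]; split_ifs
    · exact one_mem _
    · exact zero_mem _⟩
  add_mem' := by
    rintro f g ⟨i, hi⟩ ⟨j, hj⟩
    refine ⟨max i j, fun n => ?_⟩
    rw [map_add]
    exact Subfield.add_mem _ (D.mono (le_max_left _ _) (hi _)) (D.mono (le_max_right _ _) (hj _))
  zero_mem' := ⟨0, fun n => by simp⟩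
  neg_mem' := by
    rintro f ⟨i, hi⟩
    exact ⟨i, fun n => by rw [map_neg]; exact neg_mem (hi n)⟩

lemma Data.C_mem (c : k) : C c ∈ D.V := by
  obtain ⟨i, hi⟩ := D.exh c
  refine ⟨i, fun n => ?_⟩
  rw [coeff_C]; split_ifs
  · exact hi
  · exact zero_mem _

lemma Data.X_mem : (X : k⟦X⟧) ∈ D.V := ⟨0, fun n => by
  rw [coeff_X]; split_ifs
  · exact one_mem _
  · exact zero_mem _⟩

lemma Data.shift_mem {g : k⟦X⟧} (n : ℕ) (h : X ^ n * g ∈ D.V) : g ∈ D.V := by
  obtain ⟨i, hi⟩ := h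
  exact ⟨i, fun m => by have := hi (m + n); rwa [coeff_X_pow_mul] at this⟩

lemma Data.inv_mem {f : k⟦X⟧} (h : f ∈ D.V) (h0 : constantCoeff f ≠ 0) :
    ∃ g ∈ D.V, f * g = 1 := by
  obtain ⟨i, hi⟩ := h
  let f' : (D.L i)⟦X⟧ := PowerSeries.mk fun n => ⟨coeff n f, hi n⟩
  have hf : PowerSeries.map (D.L i).subtype f' = f := by
    ext n; simp [f']
  have h0' : constantCoeff f' ≠ 0 := by
    intro h
    apply h0
    rw [← hf, ← coeff_zero_eq_constantCoeff_apply, coeff_map, coeff_zero_eq_constantCoeff_apply, h,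
      map_zero]
  refine ⟨PowerSeries.map (D.L i).subtype f'⁻¹, ⟨i, fun n => ?_⟩, ?_⟩
  · rw [coeff_map]; exact Subtype.prop _
  · rw [← hf, ← map_mul, PowerSeries.mul_inv_cancel _ h0', map_one]

/-- the ring: elements of `V` whose constant coefficient is fixed by `σ` -/
noncomputable def Data.R : Subring k⟦X⟧ :=
  D.V ⊓ (RingHom.eqLocus D.σ (RingHom.id k)).comap constantCoeff

lemma Data.mem_R {f : k⟦X⟧} :
    f ∈ D.R ↔ f ∈ D.V ∧ D.σ (constantCoeff f) = constantCoeff f := Iff.rfl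

lemma Data.mem_R_of_zero {f : k⟦X⟧} (h : f ∈ D.V) (h0 : constantCoeff f = 0) : f ∈ D.R :=
  ⟨h, by show D.σ _ = _; rw [h0]; simp⟩

lemma Data.X_mul_mem {g : k⟦X⟧} (h : g ∈ D.V) : X * g ∈ D.R :=
  D.mem_R_of_zero (mul_mem D.X_mem h) (by simp)

lemma Data.isUnit_of {f : D.R} (h0 : constantCoeff (f : k⟦X⟧) ≠ 0) : IsUnit f := by
  obtain ⟨g, hg, hfg⟩ := D.inv_mem f.2.1 h0
  have h1 : constantCoeff (f : k⟦X⟧) * constantCoeff g = 1 := by rw [← map_mul, hfg, map_one]
  have h2 : constantCoeff g = (constantCoeff (f : k⟦X⟧))⁻¹ := (eq_inv_of_mul_eq_one_right h1)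
  have hgR : g ∈ D.R := D.mem_R.2 ⟨hg, by rw [h2, map_inv₀, (D.mem_R.1 f.2).2]⟩
  exact IsUnit.of_mul_eq_one ⟨g, hgR⟩ (Subtype.ext hfg)

lemma Data.not_isUnit {f : D.R} (h0 : constantCoeff (f : k⟦X⟧) = 0) : ¬ IsUnit f := by
  intro h
  have := (h.map D.R.subtype).map (constantCoeff (R := k))
  simp only [Subring.subtype_apply, h0] at this
  exact not_isUnit_zero this

instance : IsLocalRing D.R := IsLocalRing.of_isUnit_or_isUnit_one_sub_self fun f => by
  by_cases h : constantCoeff (f : k⟦X⟧) = 0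
  · right; apply D.isUnit_of; simp [h]
  · left; exact D.isUnit_of h

lemma Data.mem_max {f : D.R} :
    f ∈ IsLocalRing.maximalIdeal D.R ↔ constantCoeff (f : k⟦X⟧) = 0 := by
  rw [IsLocalRing.mem_maximalIdeal, mem_nonunits_iff]
  exact ⟨fun h => by by_contra h0; exact h (D.isUnit_of h0), D.not_isUnit⟩

/-- the uniformizer -/
noncomputable def Data.t : D.R := ⟨X, by simpa using D.X_mul_mem (one_mem _)⟩

/-- `c * X` -/
noncomputable def Data.cX (c : k) : D.R := ⟨X * C c, D.X_mul_mem (D.C_mem c)⟩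

lemma Data.max_fg : (IsLocalRing.maximalIdeal D.R).FG := by
  classical
  refine ⟨{D.t, D.cX D.l}, le_antisymm ?_ ?_⟩
  · rw [Ideal.span_le]
    intro f hf
    simp only [Finset.coe_insert, Finset.coe_singleton, Set.mem_insert_iff,
      Set.mem_singleton_iff] at hf
    rcases hf with rfl | rfl <;> exact D.mem_max.2 (by simp [Data.t, Data.cX])
  · intro f hf
    obtain ⟨g, hg⟩ := X_dvd_iff.2 (D.mem_max.1 hf)
    have hgV : g ∈ D.V := D.shift_mem 1 (by rw [pow_one, ← hg]; exact f.2.1)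
    set g0 := constantCoeff g with hg0
    have hl : D.l - D.σ D.l ≠ 0 := sub_ne_zero.2 D.hl.symm
    have hl' : D.σ D.l - D.l ≠ 0 := sub_ne_zero.2 D.hl
    set v0 := (g0 - D.σ g0) / (D.l - D.σ D.l) with hv0
    have hv : D.σ v0 = v0 := by
      rw [hv0, map_div₀, map_sub, map_sub, D.σσ, D.σσ]; field_simp; ring
    have hvR : C v0 ∈ D.R := D.mem_R.2 ⟨D.C_mem _, by simpa using hv⟩
    have huR : g - C D.l * C v0 ∈ D.R := D.mem_R.2 ⟨sub_mem hgV (mul_mem (D.C_mem _) (D.C_mem _)), by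
      simp only [map_sub, map_mul, constantCoeff_C, ← hg0, hv]
      rw [hv0]; field_simp; ring⟩
    rw [Finset.coe_insert, Finset.coe_singleton, Ideal.mem_span_pair]
    refine ⟨⟨_, huR⟩, ⟨_, hvR⟩, Subtype.ext ?_⟩
    simp only [Data.t, Data.cX, Subring.coe_add, Subring.coe_mul, hg]
    ring

lemma Data.max_le_radical (f : D.R) (hf : f ≠ 0) :
    IsLocalRing.maximalIdeal D.R ≤ (Ideal.span {f}).radical := by
  intro g hg
  have hf' : (f : k⟦X⟧) ≠ 0 := fun h => hf (Subtype.ext h)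
  obtain ⟨g', hg'⟩ := X_dvd_iff.2 (D.mem_max.1 hg)
  have hgV : g' ∈ D.V := D.shift_mem 1 (by rw [pow_one, ← hg']; exact g.2.1)
  have h1 := X_pow_order_mul_divXPowOrder (f := (f : k⟦X⟧))
  set n := (order (f : k⟦X⟧)).toNat
  set u := divXPowOrder (f : k⟦X⟧)
  have huV : u ∈ D.V := D.shift_mem n (by rw [h1]; exact f.2.1)
  have hu0 : constantCoeff u ≠ 0 := by
    simpa [u, constantCoeff_divXPowOrder_eq_zero_iff.not] using hf'
  obtain ⟨w, hw, huw⟩ := D.inv_mem huV hu0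
  refine ⟨n + 1, Ideal.mem_span_singleton'.2
    ⟨⟨X * (w * g' ^ (n + 1)), D.X_mul_mem (mul_mem hw (pow_mem hgV _))⟩, Subtype.ext ?_⟩⟩
  simp only [Subring.coe_mul, SubmonoidClass.coe_pow, hg']
  rw [← h1]
  calc X * (w * g' ^ (n + 1)) * (X ^ n * u) = (X * g') ^ (n + 1) * (u * w) := by ring
    _ = _ := by rw [huw, mul_one]

instance : IsNoetherianRing D.R := IsNoetherianRing.of_prime_ne_bot fun P hP hP0 => by
  obtain ⟨f, hfP, hf⟩ := Submodule.exists_mem_ne_zero_of_ne_bot hP0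
  have : P = IsLocalRing.maximalIdeal D.R := by
    refine le_antisymm (IsLocalRing.le_maximalIdeal hP.ne_top) ?_
    refine (D.max_le_radical f hf).trans ?_
    rw [hP.radical_le_iff, Ideal.span_le]
    simpa using hfP
  rw [this]; exact D.max_fg

lemma Data.dim : ringKrullDim D.R = 1 := by
  rw [ringKrullDim_eq_one_iff_of_isLocalRing_isDomain]
  refine ⟨fun h => ?_, fun x hx => D.max_le_radical x hx⟩
  have ht : D.t ≠ 0 := fun h => X_ne_zero (congrArg Subtype.val h)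
  obtain ⟨b, hb⟩ := h.mul_inv_cancel ht
  exact D.not_isUnit (f := D.t) (by simp [Data.t]) (IsUnit.of_mul_eq_one b hb)

/-- the coefficientwise extension of a `p⁻¹`-linear map -/
noncomputable def Phi (p : ℕ) (θ : k →+ k) : k⟦X⟧ →+ k⟦X⟧ where
  toFun f := PowerSeries.mk fun n => θ (coeff (p * n) f)
  map_zero' := by ext; simp
  map_add' f g := by ext; simp

lemma coeff_Phi (θ : k →+ k) (f : k⟦X⟧) (n : ℕ) : coeff n (Phi p θ f) = θ (coeff (p * n) f) := by
  simp [Phi]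

lemma Phi_lin [Fact p.Prime] [CharP k p] (θ : k →+ k) (h : ∀ x y, θ (x ^ p * y) = x * θ y)
    (g f : k⟦X⟧) : Phi p θ (g ^ p * f) = g * Phi p θ f := by
  have hp : 0 < p := (Fact.out : p.Prime).pos
  have : CharP k⟦X⟧ p := charP_of_injective_algebraMap (algebraMap k k⟦X⟧).injective p
  have hC : ∀ (c : k) (f : k⟦X⟧), Phi p θ (C c ^ p * f) = C c * Phi p θ f := by
    intro c f; ext n
    rw [← map_pow, coeff_Phi, coeff_C_mul, coeff_C_mul, h, coeff_Phi]
  have hX : ∀ f : k⟦X⟧, Phi p θ (X ^ p * f) = X * Phi p θ f := by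
    intro f; ext n
    cases n with
    | zero =>
      rw [coeff_Phi, coeff_X_pow_mul', if_neg (by omega), map_zero]; simp
    | succ n =>
      rw [coeff_Phi, coeff_succ_X_mul, coeff_Phi, mul_add, mul_one, coeff_X_pow_mul]
  ext n
  induction n generalizing g with
  | zero =>
    rw [coeff_Phi]
    simp only [mul_zero, coeff_zero_eq_constantCoeff_apply, map_mul, map_pow, h]
    rw [← coeff_zero_eq_constantCoeff_apply (Phi p θ f), coeff_Phi]; simp
  | succ n ih =>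
    have hg := eq_X_mul_shift_add_const g
    set g' := PowerSeries.mk fun i => coeff (i + 1) g
    set c := constantCoeff g
    have h1 : g ^ p * f = X ^ p * (g' ^ p * f) + C c ^ p * f := by
      conv_lhs => rw [hg, add_pow_char]
      ring
    rw [h1, map_add, hX, hC, map_add, coeff_succ_X_mul, ih]
    conv_rhs => rw [hg, add_mul, mul_assoc, map_add, coeff_succ_X_mul]

end Pool.Agent.H184Z.FPure
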