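import Pool.Agent.H184Z.FPure.Ring

set_option autoImplicit false

namespace Pool.Agent.H184Z.FPure

open PowerSeries TensorProduct

variable {p : ℕ} [Fact p.Prime] {k : Type} [Field k] [CharP k p] (D : Data p k)

instance : CharP k⟦X⟧ p := charP_of_injective_algebraMap (algebraMap k k⟦X⟧).injective p

instance : CharP D.R p := CharP.subring _ p D.R

omit [Fact p.Prime] [CharP k p] in
lemma Data.Phi_mem (i : ℕ) {f : k⟦X⟧} (h : f ∈ D.V) : Phi p (D.θ i) f ∈ D.V := by
  obtain ⟨j, hj⟩ := h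
  refine ⟨max i j, fun n => ?_⟩
  rw [coeff_Phi]
  exact D.θ_mem i _ (le_max_left _ _) _ (D.mono (le_max_right _ _) (hj _))

/-- underlying series of an element of `F_* R` -/
def Data.val (x : FStar p D.R) : k⟦X⟧ := (show D.R from x).1

lemma Data.val_smul (r : D.R) (x : FStar p D.R) : D.val (r • x) = (r : k⟦X⟧) ^ p * D.val x := rfl

omit [Fact p.Prime] [CharP k p] in
lemma Data.val_add (x y : FStar p D.R) : D.val (x + y) = D.val x + D.val y := rfl

omit [Fact p.Prime] [CharP k p] in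
lemma Data.val_zero : D.val (0 : FStar p D.R) = 0 := rfl

omit [Fact p.Prime] [CharP k p] in
lemma Data.val_one : D.val (FStar.one p D.R) = 1 := rfl

omit [Fact p.Prime] [CharP k p] in
lemma Data.val_mem (x : FStar p D.R) : D.val x ∈ D.R := (show D.R from x).2

omit [Fact p.Prime] [CharP k p] in
lemma Data.Phi_one (i : ℕ) (hp : 0 < p) : Phi p (D.θ i) 1 = 1 := by
  ext n
  rw [coeff_Phi, coeff_one, coeff_one]
  by_cases h : n = 0
  · simp [h, D.θ_one]
  · rw [if_neg h, if_neg (by positivity), map_zero]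

theorem Data.exists_nonzero : ∃ φ : FStar p D.R →ₗ[D.R] D.R, φ ≠ 0 := by
  have hp : 0 < p := (Fact.out : p.Prime).pos
  let φ : FStar p D.R →ₗ[D.R] D.R :=
    { toFun := fun x => ⟨X * Phi p (D.θ 0) (D.val x), D.X_mul_mem (D.Phi_mem 0 (D.val_mem x).1)⟩
      map_add' := fun x y => Subtype.ext (by simp [D.val_add, mul_add])
      map_smul' := fun r x => Subtype.ext (by
        simp only [D.val_smul, Phi_lin _ (D.θ_lin 0), RingHom.id_apply, smul_eq_mul,
          Subring.coe_mul]
        ring) }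
  refine ⟨φ, fun h => ?_⟩
  have h1 : (φ (FStar.one p D.R) : k⟦X⟧) = 0 := by rw [h]; rfl
  have h2 : (φ (FStar.one p D.R) : k⟦X⟧) = X := by
    show X * Phi p (D.θ 0) (D.val (FStar.one p D.R)) = X
    rw [D.val_one, D.Phi_one 0 hp, mul_one]
  exact X_ne_zero (h2.symm.trans h1)

/-- the elements of `F_* R` that all `Phi (θ j)`, `j ≥ i`, send into `R` -/
def Data.good (i : ℕ) : Submodule D.R (FStar p D.R) where
  carrier := {x | ∀ j, i ≤ j → Phi p (D.θ j) (D.val x) ∈ D.R}
  add_mem' := fun hx hy j hj => by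
    rw [D.val_add, map_add]; exact add_mem (hx j hj) (hy j hj)
  zero_mem' := fun j _ => by rw [D.val_zero, map_zero]; exact zero_mem _
  smul_mem' := fun r x hx j hj => by
    rw [D.val_smul, Phi_lin _ (D.θ_lin j)]; exact mul_mem r.2 (hx j hj)

lemma Data.good_mono : Monotone D.good := fun _ _ h _ hx j hj => hx j (h.trans hj)

lemma Data.exists_good (x : FStar p D.R) : ∃ i, x ∈ D.good i := by
  obtain ⟨i, hi⟩ := D.θ_fix _ (D.mem_R.1 (D.val_mem x)).2
  refine ⟨i, fun j hj => D.mem_R.2 ⟨D.Phi_mem j (D.val_mem x).1, ?_⟩⟩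
  rw [← coeff_zero_eq_constantCoeff_apply, coeff_Phi, mul_zero, coeff_zero_eq_constantCoeff_apply]
  exact hi j hj

theorem Data.pure : IsFPure p D.R := by
  have hp : 0 < p := (Fact.out : p.Prime).pos
  intro M _ _
  have key : ∀ m : M, (m ⊗ₜ[D.R] FStar.one p D.R : M ⊗[D.R] FStar p D.R) = 0 → m = 0 := by
    intro m hm
    have hm' : (FStar.one p D.R ⊗ₜ[D.R] m : FStar p D.R ⊗[D.R] M) = 0 := by
      have := congrArg (TensorProduct.comm D.R M (FStar p D.R)) hm
      simpa using this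
    let P : Submodule D.R (FStar p D.R) := Submodule.span D.R {FStar.one p D.R}
    have hP : P.FG := Submodule.fg_span_singleton _
    let o : P := ⟨FStar.one p D.R, Submodule.mem_span_singleton_self _⟩
    obtain ⟨Q, hPQ, hQ, h0⟩ := TensorProduct.eq_zero_of_fg_of_subtype_eq_zero hP
      (t := (o ⊗ₜ[D.R] m : P ⊗[D.R] M)) (by simpa [o] using hm')
    obtain ⟨i, hi⟩ : ∃ i, Q ≤ D.good i := by
      obtain ⟨s, rfl⟩ := hQ
      choose f hf using D.exists_good
      refine ⟨s.sup f, Submodule.span_le.2 fun x hx => D.good_mono (Finset.le_sup hx) (hf x)⟩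
    let φ : Q →ₗ[D.R] D.R :=
      { toFun := fun x => ⟨Phi p (D.θ i) (D.val x), hi x.2 i le_rfl⟩
        map_add' := fun x y => Subtype.ext (by simp [D.val_add])
        map_smul' := fun r x => Subtype.ext (by
          simp only [Submodule.coe_smul, D.val_smul, Phi_lin _ (D.θ_lin i), RingHom.id_apply,
            smul_eq_mul, Subring.coe_mul]) }
    have h1 : φ (Submodule.inclusion hPQ o) = 1 := Subtype.ext (D.Phi_one i hp)
    have := congrArg (fun z => TensorProduct.lid D.R M (LinearMap.rTensor M φ z)) h0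
    simpa [h1] using this
  intro m m' h
  rw [← sub_eq_zero]
  apply key
  rw [sub_tmul]
  exact sub_eq_zero.2 h

theorem Data.not_split : ¬ IsFSplit p D.R := by
  have hp : 0 < p := (Fact.out : p.Prime).pos
  rintro ⟨φ0, hφ0⟩
  -- the splitting as an additive map `R → k⟦X⟧`
  let φ : D.R →+ k⟦X⟧ := D.R.subtype.toAddMonoidHom.comp φ0.toAddMonoidHom
  have hmem : ∀ r, φ r ∈ D.R := fun r => (φ0 r).2
  have hlin : ∀ r s : D.R, φ (r ^ p * s) = r * φ s := fun r s =>
    congrArg Subtype.val (φ0.map_smul r s)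
  have hone : φ 1 = 1 := congrArg Subtype.val hφ0
  have htv : (D.t : k⟦X⟧) = X := rfl
  -- multiplication by constants
  have hC : ∀ (b : k) (r r' : D.R), (r' : k⟦X⟧) = C b ^ p * r → φ r' = C b * φ r := by
    intro b r r' h
    have h1 : D.t ^ p * r' = D.cX b ^ p * r := Subtype.ext (by
      simp only [Subring.coe_mul, SubmonoidClass.coe_pow, htv, Data.cX, h]; ring)
    have h2 := congrArg φ h1
    rw [hlin, hlin, htv] at h2
    apply mul_left_cancel₀ (X_ne_zero (R := k))
    rw [h2]; simp only [Data.cX]; ring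
  have hzero : ∀ r : D.R, constantCoeff (r : k⟦X⟧) = 0 → constantCoeff (φ r) = 0 := by
    intro r hr
    have h1 : C D.l ^ p * (r : k⟦X⟧) ∈ D.R :=
      D.mem_R_of_zero (mul_mem (pow_mem (D.C_mem _) _) r.2.1) (by simp [hr])
    have h2 := (D.mem_R.1 (hmem ⟨_, h1⟩)).2
    rw [hC D.l r ⟨_, h1⟩ rfl] at h2
    simp only [map_mul, constantCoeff_C, (D.mem_R.1 (hmem r)).2] at h2
    rcases mul_eq_mul_right_iff.1 h2 with h | h
    · exact absurd h D.hl
    · exact h
  have hXp : ∀ g ∈ D.V, X ^ p * g ∈ D.R := fun g hg =>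
    D.mem_R_of_zero (mul_mem (pow_mem D.X_mem _) hg) (by simp [hp.ne'])
  let e : k →+ D.R :=
    { toFun := fun c => ⟨X ^ p * C c, hXp _ (D.C_mem c)⟩
      map_zero' := Subtype.ext (by simp)
      map_add' := fun a b => Subtype.ext (by simp [mul_add]) }
  have he : ∀ c, (e c : k⟦X⟧) = X ^ p * C c := fun c => rfl
  let Θ : k →+ k := (coeff (R := k) 1).toAddMonoidHom.comp (φ.comp e)
  have hΘ : ∀ c, Θ c = coeff 1 (φ (e c)) := fun c => rfl
  have hΘfix : ∀ c, (hc : D.σ c = c) →
      Θ c = constantCoeff (φ ⟨C c, D.mem_R.2 ⟨D.C_mem c, by simpa using hc⟩⟩) := by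
    intro c hc
    have : e c = D.t ^ p * ⟨C c, D.mem_R.2 ⟨D.C_mem c, by simpa using hc⟩⟩ := Subtype.ext rfl
    rw [hΘ, this, hlin, htv, coeff_succ_X_mul, coeff_zero_eq_constantCoeff_apply]
  have hob := D.obst Θ
    (fun x y => by
      rw [hΘ, hΘ, hC x (e y) (e (x ^ p * y)) (by rw [he, he, map_mul, map_pow]; ring), coeff_C_mul])
    (by
      rw [hΘfix 1 (map_one _)]
      have : (⟨C 1, D.mem_R.2 ⟨D.C_mem 1, by simp⟩⟩ : D.R) = 1 := Subtype.ext (by simp)
      rw [this, hone, map_one])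
    (fun x hx => by rw [hΘfix x hx]; exact (D.mem_R.1 (hmem _)).2)
  choose a ha0 ha using hob
  choose lev hlev using D.exh
  -- the diagonal series
  let nxt : ℕ → D.R → k := fun n f => a (max n (lev (coeff (n + 1) (φ f))))
  let F : ℕ → D.R := fun n => Nat.rec 0 (fun n f => f + (D.t ^ n) ^ p * e (nxt n f)) n
  let c : ℕ → k := fun n => nxt n (F n)
  have hF : ∀ n, F (n + 1) = F n + (D.t ^ n) ^ p * e (c n) := fun n => rfl
  let T : ℕ → k⟦X⟧ := fun n => PowerSeries.mk fun N => if p ∣ N then c (n + N / p) else 0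
  have hTV : ∀ n, T n ∈ D.V := fun n => ⟨0, fun N => by
    simp only [T, coeff_mk]; split_ifs
    · exact ha0 _
    · exact zero_mem _⟩
  have hT : ∀ n, T n = C (c n) + X ^ p * T (n + 1) := by
    intro n; ext N
    rw [map_add, coeff_C, coeff_X_pow_mul']
    simp only [T, coeff_mk]
    by_cases hN : N = 0
    · subst hN; simp [hp.ne']
    · rw [if_neg hN, zero_add]
      by_cases hle : p ≤ N
      · rw [if_pos hle]
        obtain ⟨N', rfl⟩ := Nat.exists_eq_add_of_le hle
        rw [Nat.add_sub_cancel_left, Nat.add_div_left _ hp]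
        simp only [Nat.dvd_add_right (dvd_refl p)]
        rw [show n + (N' / p + 1) = n + 1 + N' / p by ring]
      · rw [if_neg hle, if_neg]
        intro hd
        exact hle (Nat.le_of_dvd (Nat.pos_of_ne_zero hN) hd)
  let r : ℕ → D.R := fun n => ⟨X ^ p * T n, hXp _ (hTV n)⟩
  have hr : ∀ n, r 0 = F n + (D.t ^ n) ^ p * r n := by
    intro n
    induction n with
    | zero => simp [F]
    | succ n ih =>
      rw [ih, hF]
      apply Subtype.ext
      simp only [Subring.coe_add, Subring.coe_mul, SubmonoidClass.coe_pow, htv, he, r]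
      rw [hT n]; ring
  obtain ⟨i, hi⟩ := (hmem (r 0)).1
  have h1 := hi (i + 1)
  rw [hr (i + 1), hF, map_add φ, map_add φ, hlin, hlin] at h1
  simp only [SubmonoidClass.coe_pow, htv, map_add] at h1
  have h2 : coeff (i + 1) (X ^ i * φ (e (c i))) = Θ (c i) := by
    rw [add_comm i 1, coeff_X_pow_mul, hΘ]
  have h3 : coeff (i + 1) (X ^ (i + 1) * φ (r (i + 1))) = 0 := by
    have := coeff_X_pow_mul (φ (r (i + 1))) (i + 1) 0
    rw [zero_add] at this
    rw [this, coeff_zero_eq_constantCoeff_apply]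
    exact hzero _ (by simp [r, hp.ne'])
  rw [h2, h3, add_zero] at h1
  apply ha (max i (lev (coeff (i + 1) (φ (F i)))))
  have h4 := sub_mem (D.mono (le_max_left i (lev (coeff (i + 1) (φ (F i))))) h1)
    (D.mono (le_max_right i (lev (coeff (i + 1) (φ (F i))))) (hlev _))
  simpa using h4

end Pool.Agent.H184Z.FPure
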